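import Pool.Agent.Helper68.LM2.Geo

/-!
# Project LM2: module CO (orthonormal coordinates)
-/

set_option autoImplicit false

open MeasureTheory Set Filter Topology
open scoped ENNReal RealInnerProductSpace

namespace Pool.Agent.Helper31.LM2

open Pool.Agent.Helper68.LM2 Pool.Agent.Helper68.LM

theorem hCO : StCO := by
  intro u v hu hv huv
  have hon : Orthonormal ℝ (![u, v] : Fin 2 → Pl) := by
    rw [orthonormal_iff_ite]
    intro i j
    fin_cases i <;> fin_cases j
    · simp [hu]
    · simp [huv]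
    · simp [real_inner_comm, huv]
    · simp [hv]
  have hspan : ⊤ ≤ Submodule.span ℝ (Set.range (![u, v] : Fin 2 → Pl)) := by
    rw [hon.linearIndependent.span_eq_top_of_card_eq_finrank' (by simp)]
  let b := OrthonormalBasis.mk hon hspan
  have hb0 : b 0 = u := by simp [b]
  have hb1 : b 1 = v := by simp [b]
  have hdec : ∀ x : Pl, (⟪x, u⟫ : ℝ) • u + (⟪x, v⟫ : ℝ) • v = x := by
    intro x
    have h := b.sum_repr' x
    rw [Fin.sum_univ_two, hb0, hb1] at h
    rw [real_inner_comm u x, real_inner_comm v x, h]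
  have hvu : ⟪v, u⟫ = (0 : ℝ) := by rw [real_inner_comm]; exact huv
  have huu : ⟪u, u⟫ = (1 : ℝ) := by rw [real_inner_self_eq_norm_sq, hu]; norm_num
  have hvv : ⟪v, v⟫ = (1 : ℝ) := by rw [real_inner_self_eq_norm_sq, hv]; norm_num
  have hinn : ∀ s t : ℝ, ⟪s • u + t • v, u⟫ = s ∧ ⟪s • u + t • v, v⟫ = t ∧
      ‖s • u + t • v‖ ^ 2 = s ^ 2 + t ^ 2 := by
    intro s t
    have e1 : ⟪s • u + t • v, u⟫ = s := by
      rw [inner_add_left, real_inner_smul_left, real_inner_smul_left, huu, hvu]; ring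
    have e2 : ⟪s • u + t • v, v⟫ = t := by
      rw [inner_add_left, real_inner_smul_left, real_inner_smul_left, huv, hvv]; ring
    refine ⟨e1, e2, ?_⟩
    rw [← real_inner_self_eq_norm_sq, inner_add_right, real_inner_smul_right,
      real_inner_smul_right, e1, e2]
    ring
  have hmp : MeasurePreserving (fun z : ℝ × ℝ => z.1 • u + z.2 • v) volume volume := by
    have h1 : MeasurePreserving (MeasurableEquiv.finTwoArrow (α := ℝ)).symm volume volume :=
      (volume_preserving_finTwoArrow ℝ).symm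
    have h2 := PiLp.volume_preserving_toLp (Fin 2)
    have h3 := b.measurePreserving_repr_symm
    have h4 := h3.comp (h2.comp h1)
    have h5 : (fun z : ℝ × ℝ => z.1 • u + z.2 • v) =
        (b.repr.symm ∘ ((WithLp.toLp 2) ∘ (MeasurableEquiv.finTwoArrow (α := ℝ)).symm)) := by
      funext z
      simp only [Function.comp_apply]
      have h6 := b.sum_repr_symm (WithLp.toLp 2 ((MeasurableEquiv.finTwoArrow (α := ℝ)).symm z))
      rw [← h6, Fin.sum_univ_two, hb0, hb1]
      rfl
    rw [h5]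
    exact h4
  have hmeas : Measurable (fun z : ℝ × ℝ => z.1 • u + z.2 • v) := hmp.measurable
  have hBR : ∀ g : Pl → ℝ, BB g → BR (fun z => g (z.1 • u + z.2 • v)) := by
    intro g hg
    obtain ⟨hgm, K, hK1, hK2⟩ := hg
    refine ⟨hgm.comp hmeas, K, fun z => hK1 _, ?_⟩
    intro z hz
    apply hK2
    refine lt_of_lt_of_le hz ?_
    have h1 := (hinn z.1 z.2).2.2
    rw [Prod.norm_def]
    apply max_le
    · rw [Real.norm_eq_abs]
      apply abs_le_of_sq_le_sq _ (norm_nonneg _)
      nlinarith [sq_nonneg z.2]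
    · rw [Real.norm_eq_abs]
      apply abs_le_of_sq_le_sq _ (norm_nonneg _)
      nlinarith [sq_nonneg z.1]
  have hlin : ∀ F : Pl → ℝ≥0∞, Measurable F →
      ∫⁻ x, F x = ∫⁻ z : ℝ × ℝ, F (z.1 • u + z.2 • v) := by
    intro F hF
    exact (hmp.lintegral_comp hF).symm
  refine ⟨hmp, hdec, hinn, hBR, hlin, ?_⟩
  intro F hF
  have h1 := hlin (fun x : Pl => F (⟪x, u⟫, ⟪x, v⟫)) (by
    apply hF.comp
    fun_prop)
  rw [h1]
  apply lintegral_congr
  intro z
  have h2 := hinn z.1 z.2
  simp only [h2.1, h2.2.1]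

end Pool.Agent.Helper31.LM2
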