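import Pool.Agent.Helper68.LM2.Geo
import Pool.Agent.Helper68.LM.Asm

/-!
# Project LM2: module MBA (bounded maximal operators: arcs and sums)
-/

set_option autoImplicit false

open MeasureTheory Set Filter Topology
open scoped ENNReal RealInnerProductSpace

namespace Pool.Agent.Helper31.LM2

open Pool.Agent.Helper68.LM2 Pool.Agent.Helper68.LM

theorem MB_arc_MBA (p : ℝ) (hp : 1 < p) (a b κ : ℝ) (G : ℝ → Pl) (h : IsArc a b κ G)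
    (hκ : 0 < κ) : MB p (arcMeasure a b G) := by
  have hab : 0 < b - a := sub_pos.2 h.1
  obtain ⟨κ', hκ'⟩ : ∃ κ' : ℝ, κ' = min κ 1 := ⟨_, rfl⟩
  have hκ'0 : 0 < κ' := by rw [hκ']; exact lt_min hκ one_pos
  have hκ'1 : κ' ≤ 1 := by rw [hκ']; exact min_le_right _ _
  have hκ'κ : κ' ≤ κ := by rw [hκ']; exact min_le_left _ _
  have h' : IsArc a b κ' G := by
    obtain ⟨h1, c, u, v, φ, hu, hv, huv, hG, hφ, hφ2, hd⟩ := h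
    exact ⟨h1, c, u, v, φ, hu, hv, huv, hG, hφ, hφ2, fun t ht =>
      ⟨(hd t ht).1, hκ'κ.trans (hd t ht).2⟩⟩
  obtain ⟨C, hC1, hAD⟩ := aAD
  obtain ⟨N, hN⟩ := pow_unbounded_of_one_lt (C / (κ' * (b - a) ^ 2)) (one_lt_two (α := ℝ))
  have hdec := hAD a b κ' G h' hκ'0 hκ'1 N hN.le
  obtain ⟨R, hR⟩ : ∃ R : ℝ, R = ‖G a‖ + 2 * (b - a) + 1 := ⟨_, rfl⟩
  have hR0 : 0 < R := by rw [hR]; positivity
  have hin : ∀ t ∈ Icc a b, G t ∈ Metric.closedBall (0 : Pl) R := by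
    intro t ht
    rw [mem_closedBall_zero_iff]
    have h1 := Pool.Agent.Helper79.LM.arc_lip'_TC h a ⟨le_rfl, h.1.le⟩ t ht
    have h2 : ‖G t‖ ≤ ‖G t - G a‖ + ‖G a‖ := by
      have := norm_add_le (G t - G a) (G a)
      rwa [sub_add_cancel] at this
    linarith
  have hBd : Bd R (b - a) (arcMeasure a b G) := Pool.Agent.Helper79.LM.arc_Bd_TC h hin
  obtain ⟨C₁, hC₁, hHA⟩ := aHA p R hp hR0
  exact ⟨⟨lt_of_le_of_lt hBd.2 ENNReal.ofReal_lt_top⟩, C₁ * (b - a) ^ p * (N + 1),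
    fun f hf => hHA (arcMeasure a b G) (b - a) N hBd hab hdec f hf⟩

theorem sup_meas_MBA (ν : Measure Pl) [SFinite ν] (f : Pl → ℝ≥0∞) (hf : Measurable f) :
    Measurable (fun x => ⨆ k : ℤ, ∫⁻ y, f (x - (2 : ℝ) ^ k • y) ∂ν) := by
  apply Measurable.iSup
  intro k
  have h1 : Measurable (fun z : Pl × Pl => f (z.1 - (2 : ℝ) ^ k • z.2)) :=
    hf.comp (measurable_fst.sub ((measurable_const_smul ((2 : ℝ) ^ k)).comp measurable_snd))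
  exact h1.lintegral_prod_right'

theorem MB_add_MBA (p : ℝ) (hp : 1 < p) (ν₁ ν₂ : Measure Pl) (h1 : MB p ν₁) (h2 : MB p ν₂) :
    MB p (ν₁ + ν₂) := by
  obtain ⟨hf1, C1, hC1⟩ := h1
  obtain ⟨hf2, C2, hC2⟩ := h2
  refine ⟨inferInstance, (2 : ℝ) ^ (p - 1) * (max C1 0 + max C2 0), ?_⟩
  intro f hf
  have hp0 : 0 < p := by linarith
  have hm1 := sup_meas_MBA ν₁ f hf
  have hm2 := sup_meas_MBA ν₂ f hf
  have hpt : ∀ x : Pl, (⨆ k : ℤ, ∫⁻ y, f (x - (2 : ℝ) ^ k • y) ∂(ν₁ + ν₂)) ^ p ≤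
      (2 : ℝ≥0∞) ^ (p - 1) * ((⨆ k : ℤ, ∫⁻ y, f (x - (2 : ℝ) ^ k • y) ∂ν₁) ^ p +
        (⨆ k : ℤ, ∫⁻ y, f (x - (2 : ℝ) ^ k • y) ∂ν₂) ^ p) := by
    intro x
    refine le_trans ?_ (ENNReal.rpow_add_le_mul_rpow_add_rpow _ _ hp.le)
    apply ENNReal.rpow_le_rpow _ hp0.le
    apply iSup_le
    intro k
    rw [lintegral_add_measure]
    exact add_le_add (le_iSup (fun k : ℤ => ∫⁻ y, f (x - (2 : ℝ) ^ k • y) ∂ν₁) k)
      (le_iSup (fun k : ℤ => ∫⁻ y, f (x - (2 : ℝ) ^ k • y) ∂ν₂) k)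
  have h2top : (2 : ℝ≥0∞) ^ (p - 1) ≠ ⊤ :=
    ENNReal.rpow_ne_top_of_nonneg (by linarith) (by norm_num)
  have h2r : (2 : ℝ≥0∞) ^ (p - 1) = ENNReal.ofReal ((2 : ℝ) ^ (p - 1)) := by
    rw [← ENNReal.ofReal_rpow_of_pos two_pos]
    norm_num
  calc ∫⁻ x, (⨆ k : ℤ, ∫⁻ y, f (x - (2 : ℝ) ^ k • y) ∂(ν₁ + ν₂)) ^ p
      ≤ ∫⁻ x, (2 : ℝ≥0∞) ^ (p - 1) * ((⨆ k : ℤ, ∫⁻ y, f (x - (2 : ℝ) ^ k • y) ∂ν₁) ^ p +
        (⨆ k : ℤ, ∫⁻ y, f (x - (2 : ℝ) ^ k • y) ∂ν₂) ^ p) := lintegral_mono hpt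
    _ = (2 : ℝ≥0∞) ^ (p - 1) * ((∫⁻ x, (⨆ k : ℤ, ∫⁻ y, f (x - (2 : ℝ) ^ k • y) ∂ν₁) ^ p) +
        ∫⁻ x, (⨆ k : ℤ, ∫⁻ y, f (x - (2 : ℝ) ^ k • y) ∂ν₂) ^ p) := by
        rw [lintegral_const_mul' _ _ h2top, lintegral_add_left (hm1.pow_const p)]
    _ ≤ (2 : ℝ≥0∞) ^ (p - 1) * ((ENNReal.ofReal C1 * ∫⁻ x, f x ^ p) +
        ENNReal.ofReal C2 * ∫⁻ x, f x ^ p) := by
        gcongr
        · exact hC1 f hf
        · exact hC2 f hf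
    _ ≤ ENNReal.ofReal ((2 : ℝ) ^ (p - 1) * (max C1 0 + max C2 0)) * ∫⁻ x, f x ^ p := by
        rw [ENNReal.ofReal_mul (by positivity), ENNReal.ofReal_add (le_max_right _ _)
          (le_max_right _ _), h2r, ← add_mul, mul_assoc]
        gcongr
        · exact le_max_left _ _
        · exact le_max_left _ _

theorem hMBA : StMBA := by
  intro p hp
  have hp0 : 0 < p := by linarith
  refine ⟨fun a b κ G h hκ => MB_arc_MBA p hp a b κ G h hκ,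
    fun ν₁ ν₂ h1 h2 => MB_add_MBA p hp ν₁ ν₂ h1 h2, ?_, ?_⟩
  · intro ν h
    have h1 : (2 : ℝ≥0∞) • ν = ν + ν := two_smul ℝ≥0∞ ν
    rw [h1]
    exact MB_add_MBA p hp ν ν h h
  · refine ⟨inferInstance, 0, ?_⟩
    intro f hf
    simp [hp0]

end Pool.Agent.Helper31.LM2
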